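import Pool.Agent.Run7.h900.BR.Defs

/-!
# Bohr rigidity and profinite rigidity of virtually abelian groups: assembly
-/

set_option autoImplicit false

namespace Pool.Agent.Run7.h900.BR

/-- `(K, i)` is the Bohr compactification of `Γ`. -/
def IsBohr (Γ : Type) [Group Γ] (K : Type) [TopologicalSpace K] [Group K] (i : Γ →* K) : Prop :=
  ∀ (M : Type) [TopologicalSpace M] [Group M] [IsTopologicalGroup M] [CompactSpace M] [T2Space M]
    (f : Γ →* M), ∃! h : K →* M, Continuous h ∧ h.comp i = f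

/-- `(K, i)` is the profinite completion of `Γ`. -/
def IsProf (Γ : Type) [Group Γ] (K : Type) [TopologicalSpace K] [Group K] (i : Γ →* K) : Prop :=
  ∀ (M : Type) [TopologicalSpace M] [Group M] [IsTopologicalGroup M] [CompactSpace M] [T2Space M]
    [TotallyDisconnectedSpace M] (f : Γ →* M), ∃! h : K →* M, Continuous h ∧ h.comp i = f

/-- residually finite -/
def RF (Γ : Type) [Group Γ] : Prop := ∀ g : Γ, g ≠ 1 → ∃ H : Subgroup Γ, H.index ≠ 0 ∧ g ∉ H

section uniq

variable {Γ K L : Type} [Group Γ] [TopologicalSpace K] [Group K] [IsTopologicalGroup K]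
  [CompactSpace K] [T2Space K] [TopologicalSpace L] [Group L] [IsTopologicalGroup L]
  [CompactSpace L] [T2Space L] {i : Γ →* K} {j : Γ →* L}

lemma mkEquiv (h : K →* L) (k : L →* K) (hc : Continuous h) (kc : Continuous k)
    (h1 : h.comp i = j) (h2 : k.comp j = i)
    (u : ∀ f : K →* K, Continuous f → f.comp i = i → f = MonoidHom.id K)
    (v : ∀ f : L →* L, Continuous f → f.comp j = j → f = MonoidHom.id L) :
    ∃ e : K ≃ₜ* L, ∀ g, e (i g) = j g := by
  have e1 : k.comp h = MonoidHom.id K := u _ (kc.comp hc) (by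
    rw [MonoidHom.comp_assoc, h1, h2])
  have e2 : h.comp k = MonoidHom.id L := v _ (hc.comp kc) (by
    rw [MonoidHom.comp_assoc, h2, h1])
  exact ⟨{ toFun := h
           invFun := k
           left_inv := fun x => DFunLike.congr_fun e1 x
           right_inv := fun x => DFunLike.congr_fun e2 x
           map_mul' := map_mul h
           continuous_toFun := hc
           continuous_invFun := kc }, fun g => DFunLike.congr_fun h1 g⟩

lemma uniq_bohr (hK : IsBohr Γ K i) (hL : IsBohr Γ L j) : ∃ e : K ≃ₜ* L, ∀ g, e (i g) = j g := by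
  obtain ⟨h, ⟨h1, h2⟩, -⟩ := hK L j
  obtain ⟨k, ⟨k1, k2⟩, -⟩ := hL K i
  exact mkEquiv h k h1 k1 h2 k2
    (fun f hf hf' => (hK K i).unique ⟨hf, hf'⟩ ⟨continuous_id, MonoidHom.id_comp i⟩)
    (fun f hf hf' => (hL L j).unique ⟨hf, hf'⟩ ⟨continuous_id, MonoidHom.id_comp j⟩)

lemma uniq_prof [TotallyDisconnectedSpace K] [TotallyDisconnectedSpace L] (hK : IsProf Γ K i)
    (hL : IsProf Γ L j) : ∃ e : K ≃ₜ* L, ∀ g, e (i g) = j g := by
  obtain ⟨h, ⟨h1, h2⟩, -⟩ := hK L j
  obtain ⟨k, ⟨k1, k2⟩, -⟩ := hL K i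
  exact mkEquiv h k h1 k1 h2 k2
    (fun f hf hf' => (hK K i).unique ⟨hf, hf'⟩ ⟨continuous_id, MonoidHom.id_comp i⟩)
    (fun f hf hf' => (hL L j).unique ⟨hf, hf'⟩ ⟨continuous_id, MonoidHom.id_comp j⟩)

/-- a residually finite group embeds in its profinite completion -/
lemma prof_inj (hL : IsProf Γ L j) (hΓ : RF Γ) : Function.Injective j := by
  refine (injective_iff_map_eq_one j).2 fun g hg => ?_
  by_contra hne
  obtain ⟨H, hH, hgH⟩ := hΓ g hne
  have : H.FiniteIndex := ⟨hH⟩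
  let N := H.normalCore
  have hN : Finite (Γ ⧸ N) := inferInstance
  letI : TopologicalSpace (Γ ⧸ N) := ⊥
  haveI : DiscreteTopology (Γ ⧸ N) := ⟨rfl⟩
  obtain ⟨h, ⟨-, h2⟩, -⟩ := hL (Γ ⧸ N) (QuotientGroup.mk' N)
  have h3 := DFunLike.congr_fun h2 g
  rw [MonoidHom.comp_apply, hg, map_one] at h3
  exact hgH (Subgroup.normalCore_le H ((QuotientGroup.eq_one_iff g).1 h3.symm))

end uniq

lemma dense_ι {n : ℕ} {F : Type} [Group F] [TopologicalSpace F] (D : Dat n F) {C : Type}
    [AddCommGroup C] [TopologicalSpace C] {c : C} (hc : Dns C c) :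
    DenseRange (ι D C c) := by
  have h1 : DenseRange fun k : ℤ => k • c := by
    rw [denseRange_iff_closure_range]
    exact hc
  have h2 : DenseRange (vec c : (Fin n → ℤ) → Fin n → C) := by
    have := DenseRange.piMap (fun _ : Fin n => h1)
    exact this
  have h3 : DenseRange (Prod.map (vec c : (Fin n → ℤ) → Fin n → C) (id : F → F)) :=
    h2.prodMap denseRange_id
  exact h3

/-- the model has the universal property -/
lemma model (hU : S_UNIV) {n : ℕ} {F : Type} [Group F] [TopologicalSpace F] [DiscreteTopology F]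
    [Finite F] (D : Dat n F) {C : Type} [AddCommGroup C] [TopologicalSpace C]
    [IsTopologicalAddGroup C] {c : C} (hc : Dns C c) {Λ : Type} [Group Λ] (θ : Λ ≃* E D ℤ 1)
    (M : Type) [TopologicalSpace M] [Group M] [IsTopologicalGroup M] [CompactSpace M] [T2Space M]
    (hM : Gen C c M) (f : Λ →* M) :
    ∃! h : E D C c →* M, Continuous h ∧ h.comp ((ι D C c).comp θ.toMonoidHom) = f := by
  obtain ⟨h, ⟨h1, h2⟩, h3⟩ := hU n F D C c hc M hM (f.comp θ.symm.toMonoidHom)
  refine ⟨h, ⟨h1, ?_⟩, fun k hk => h3 k ⟨hk.1, ?_⟩⟩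
  · rw [← MonoidHom.comp_assoc, h2]
    ext g
    simp
  · rw [← hk.2]
    ext g
    simp

section core

variable (hGEN : S_GEN) (hUNIV : S_UNIV) (hDATA : S_DATA) (hMAT : S_MAT) (hPAD : S_PAD)
  (hTHETA : S_THETA) (hLIFT : S_LIFT) (hSUB : S_SUB)

include hGEN hUNIV in
lemma model_bohr {n : ℕ} {F : Type} [Group F] [TopologicalSpace F] [DiscreteTopology F]
    [Finite F] (D : Dat n F) {C : Type} [AddCommGroup C] [TopologicalSpace C]
    [IsTopologicalAddGroup C] {c : C} (hc : UC C c) {Λ : Type} [Group Λ] (θ : Λ ≃* E D ℤ 1) :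
    IsBohr Λ (E D C c) ((ι D C c).comp θ.toMonoidHom) := fun M _ _ _ _ _ f =>
  model hUNIV D hc.1 θ M ((hGEN C c M).1 hc) f

include hGEN hUNIV in
lemma model_prof {n : ℕ} {F : Type} [Group F] [TopologicalSpace F] [DiscreteTopology F]
    [Finite F] (D : Dat n F) {C : Type} [AddCommGroup C] [TopologicalSpace C]
    [IsTopologicalAddGroup C] {c : C} (hc : UP C c) {Λ : Type} [Group Λ] (θ : Λ ≃* E D ℤ 1) :
    IsProf Λ (E D C c) ((ι D C c).comp θ.toMonoidHom) := fun M _ _ _ _ _ h f =>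
  model hUNIV D hc.1 θ M ((hGEN C c M).2 h hc) f

lemma ker_mul {n : ℕ} {F : Type} [Group F] (D : Dat n F) {C : Type} [AddCommGroup C] {c : C}
    {z w : E D C c} (hz : z.2 = 1) : z * w = mk D C c (z.1 + w.1) w.2 := by
  rw [mul_def, hz, D.ρ_one, act_one, D.γ_left, vec_zero, add_zero, one_mul]

lemma ker_pow {n : ℕ} {F : Type} [Group F] (D : Dat n F) {C : Type} [AddCommGroup C] {c : C}
    {z : E D C c} (hz : z.2 = 1) (k : ℕ) : z ^ k = mk D C c (k • z.1) 1 := by
  induction k with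
  | zero => rw [pow_zero, zero_smul]; rfl
  | succ k ih =>
    rw [pow_succ', ker_mul D hz, ih]
    refine Prod.ext ?_ rfl
    change z.1 + k • z.1 = (k + 1) • z.1
    rw [succ_nsmul, add_comm]

include hGEN hUNIV hDATA hMAT hPAD hTHETA hLIFT hSUB in
/-- isomorphic profinite completions, one group with a normal `ℤⁿ` of finite index: the Bohr
compactifications are isomorphic -/
theorem core {P S : Type} [AddCommGroup P] [TopologicalSpace P] [IsTopologicalAddGroup P]
    [CompactSpace P] [T2Space P] [TotallyDisconnectedSpace P] [AddCommGroup S] [TopologicalSpace S]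
    [IsTopologicalAddGroup S] [CompactSpace S] [T2Space S] {p : P} {s : S}
    (htf : ∀ k : ℕ, k ≠ 0 → ∀ x : P, k • x = 0 → x = 0)
    (hdiv : ∀ k : ℕ, k ≠ 0 → Function.Bijective fun y : S => k • y)
    (hC : UC (P × S) (p, s)) (hP : UP P p)
    (Λ : Type) [Group Λ] (A : Subgroup Λ) [A.Normal] (hA : A.index ≠ 0) (n : ℕ)
    (e : A ≃* Multiplicative (Fin n → ℤ)) (Γ : Type) [Group Γ] (hΓ : Group.FG Γ) (hrf : RF Γ)
    (K₀ : Type) [TopologicalSpace K₀] [Group K₀] [IsTopologicalGroup K₀] [CompactSpace K₀]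
    [T2Space K₀] [TotallyDisconnectedSpace K₀]
    (L₀ : Type) [TopologicalSpace L₀] [Group L₀] [IsTopologicalGroup L₀] [CompactSpace L₀]
    [T2Space L₀] [TotallyDisconnectedSpace L₀] (i₀ : Λ →* K₀) (j₀ : Γ →* L₀)
    (hi₀ : IsProf Λ K₀ i₀) (hj₀ : IsProf Γ L₀ j₀) (T : K₀ ≃ₜ* L₀) :
    ∃ (K : Type) (_ : TopologicalSpace K) (_ : Group K) (_ : IsTopologicalGroup K)
      (_ : CompactSpace K) (_ : T2Space K) (L : Type) (_ : TopologicalSpace L) (_ : Group L)
      (_ : IsTopologicalGroup L) (_ : CompactSpace L) (_ : T2Space L) (i : Λ →* K) (j : Γ →* L),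
      IsBohr Λ K i ∧ IsBohr Γ L j ∧ Nonempty (K ≃ₜ* L) := by
  haveI : A.FiniteIndex := ⟨hA⟩
  letI : TopologicalSpace (Λ ⧸ A) := ⊥
  haveI : DiscreteTopology (Λ ⧸ A) := ⟨rfl⟩
  obtain ⟨D, θ, hθ⟩ := hDATA Λ A n e
  obtain ⟨e₁, he₁⟩ := uniq_prof (model_prof hGEN hUNIV D hP θ) hi₀
  let q : L₀ →* (Λ ⧸ A) := (pr D P p).comp (T.symm.trans e₁.symm).toMulEquiv.toMonoidHom
  have hq : ∀ x, q x = (e₁.symm (T.symm x)).2 := fun x => rfl
  have hqc : Continuous q := by
    have h1 : Continuous fun z : E D P p => z.2 := continuous_snd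
    exact h1.comp (e₁.symm.continuous.comp T.symm.continuous)
  obtain ⟨A', n', hA'N, hA'i, ⟨e'⟩, hA'⟩ := hSUB Γ hΓ L₀ j₀ (prof_inj hj₀ hrf) (Λ ⧸ A) q
    (by
      intro x y hx hy
      apply T.symm.injective
      apply e₁.symm.injective
      rw [hq] at hx hy
      simp only [map_mul]
      rw [ker_mul D hx, ker_mul D hy, hx, hy, add_comm])
    (by
      intro x k hk hx hxk
      rw [hq] at hx
      have h1 : (e₁.symm (T.symm x)) ^ k = 1 := by rw [← map_pow, ← map_pow, hxk, map_one, map_one]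
      rw [ker_pow D hx k] at h1
      have h2 : k • (e₁.symm (T.symm x)).1 = 0 := congrArg Prod.fst h1
      have h3 : (e₁.symm (T.symm x)).1 = 0 := by
        funext l
        exact htf k hk _ (congrFun h2 l)
      have h4 : e₁.symm (T.symm x) = 1 := Prod.ext h3 hx
      rw [map_eq_one_iff _ e₁.symm.injective, map_eq_one_iff _ T.symm.injective] at h4
      exact h4)
  haveI := hA'N
  haveI : A'.FiniteIndex := ⟨hA'i⟩
  letI : TopologicalSpace (Γ ⧸ A') := ⊥
  haveI : DiscreteTopology (Γ ⧸ A') := ⟨rfl⟩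
  obtain ⟨D', θ', hθ'⟩ := hDATA Γ A' n' e'
  obtain ⟨e₂, he₂⟩ := uniq_prof hj₀ (model_prof hGEN hUNIV D' hP θ')
  let Θ : E D P p ≃ₜ* E D' P p := (e₁.trans T).trans e₂
  have hΘ : ∀ z, Θ z = e₂ (T (e₁ z)) := fun z => rfl
  have hden : DenseRange j₀ := by
    have h1 : DenseRange ((ι D' P p).comp θ'.toMonoidHom) := by
      have h2 := dense_ι D' hP.1
      have h3 : Set.range ((ι D' P p).comp θ'.toMonoidHom) = Set.range (ι D' P p) := by
        rw [MonoidHom.coe_comp]
        exact θ'.surjective.range_comp _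
      rw [DenseRange, h3]
      exact h2
    have h4 : (fun g => e₂.symm (((ι D' P p).comp θ'.toMonoidHom) g)) = j₀ := by
      funext g
      rw [← he₂ g]
      exact e₂.symm_apply_apply _
    rw [← h4]
    exact (e₂.symm.surjective.denseRange).comp h1 e₂.symm.continuous
  have hcmp : ∀ x : L₀, q x = 1 ↔ (e₂ x).2 = 1 := by
    have hq'c : Continuous fun x : L₀ => (e₂ x).2 := by
      have h1 : Continuous fun z : E D' P p => z.2 := continuous_snd
      exact h1.comp e₂.continuous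
    have h1 : IsClosed {x : L₀ | q x = 1 ↔ (e₂ x).2 = 1} := by
      have h2 : IsClopen {x : L₀ | q x = 1} := (isClopen_discrete {1}).preimage hqc
      have h3 : IsClopen {x : L₀ | (e₂ x).2 = 1} := (isClopen_discrete {1}).preimage hq'c
      have h4 : {x : L₀ | q x = 1 ↔ (e₂ x).2 = 1} =
          ({x : L₀ | q x = 1} ∩ {x : L₀ | (e₂ x).2 = 1}) ∪
          ({x : L₀ | q x = 1}ᶜ ∩ {x : L₀ | (e₂ x).2 = 1}ᶜ) := by
        ext x
        simp only [Set.mem_setOf_eq, Set.mem_union, Set.mem_inter_iff, Set.mem_compl_iff]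
        tauto
      rw [h4]
      exact ((h2.inter h3).union (h2.compl.inter h3.compl)).1
    intro x
    refine hden.induction_on x h1 ?_
    intro g
    rw [← hA' g, he₂ g]
    change g ∈ A' ↔ (θ' g).2 = 1
    rw [hθ', QuotientGroup.eq_one_iff]
  have hker : ∀ z, z.2 = 1 ↔ (Θ z).2 = 1 := by
    intro z
    rw [hΘ, ← hcmp, hq, T.symm_apply_apply, e₁.symm_apply_apply]
  obtain ⟨α, φ, β, h1, h2⟩ := hTHETA n n' (Λ ⧸ A) (Γ ⧸ A') D D' P p Θ hker
  obtain ⟨hn, hpad⟩ := hPAD P p hP n n' φ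
  obtain ⟨Φ, Φ', hΦ1, hΦ2, hΦ3⟩ := hpad hn (Λ ⧸ A) D.ρ (fun f => D'.ρ (α f)) h2
  subst hn
  have hdet : Φ.det ≠ 0 := by
    intro h0
    have := congrArg Matrix.det hΦ1
    rw [Matrix.det_mul, h0, zero_mul, Matrix.det_one] at this
    exact zero_ne_one this
  obtain ⟨M, hM1, hM2⟩ := hMAT n (Λ ⧸ A) D.ρ (fun f => D'.ρ (α f)) Φ hdet hΦ3
  have hfin := hLIFT n (Λ ⧸ A) (Γ ⧸ A') D D' P S p s hdiv Θ.toMulEquiv α φ β h1 h2 M hM1 hM2
  exact ⟨E D (P × S) (p, s), inferInstance, inferInstance, inferInstance, inferInstance,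
    inferInstance, E D' (P × S) (p, s), inferInstance, inferInstance, inferInstance, inferInstance,
    inferInstance, (ι D (P × S) (p, s)).comp θ.toMonoidHom,
    (ι D' (P × S) (p, s)).comp θ'.toMonoidHom, model_bohr hGEN hUNIV D hC θ,
    model_bohr hGEN hUNIV D' hC θ', hfin⟩

end core

end Pool.Agent.Run7.h900.BR
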