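import Mathlib

/-!
# Bohr rigidity and profinite rigidity of virtually abelian groups: definitions and interface

`MP_f81df4_al`.  Plan: for a group `Γ` with a normal subgroup `ℤⁿ` of finite index, `Γ = E D ℤ 1`,
profinite completion `E D P p`, Bohr compactification `E D (P × S) (p, s)`, where `P` is the profinite
completion of `ℤ`, `P × S` its Bohr compactification and `S` is uniquely divisible.
-/

set_option autoImplicit false

namespace Pool.Agent.Run7.h900.BR

/-- action of integral matrices on `Cⁿ` -/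
def act {n : ℕ} {C : Type} [AddCommGroup C] (A : Matrix (Fin n) (Fin n) ℤ) (x : Fin n → C) :
    Fin n → C := fun i => ∑ j, A i j • x j

/-- vectors of multiples of `c` -/
def vec {n : ℕ} {C : Type} [AddCommGroup C] (c : C) (v : Fin n → ℤ) : Fin n → C := fun i => v i • c

section act

variable {n : ℕ} {C : Type} [AddCommGroup C]

lemma act_one (x : Fin n → C) : act (1 : Matrix (Fin n) (Fin n) ℤ) x = x := by
  funext i
  simp [act, Matrix.one_apply, ite_smul]

lemma act_mul (A B : Matrix (Fin n) (Fin n) ℤ) (x : Fin n → C) :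
    act (A * B) x = act A (act B x) := by
  funext i
  simp only [act, Matrix.mul_apply, Finset.sum_smul, Finset.smul_sum, mul_smul]
  exact Finset.sum_comm

lemma act_add (A : Matrix (Fin n) (Fin n) ℤ) (x y : Fin n → C) :
    act A (x + y) = act A x + act A y := by
  funext i
  simp [act, smul_add, Finset.sum_add_distrib]

lemma act_zero (A : Matrix (Fin n) (Fin n) ℤ) : act A (0 : Fin n → C) = 0 := by
  funext i
  simp [act]

lemma act_neg (A : Matrix (Fin n) (Fin n) ℤ) (x : Fin n → C) : act A (-x) = -act A x := by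
  funext i
  simp [act]

lemma act_vec (A : Matrix (Fin n) (Fin n) ℤ) (c : C) (v : Fin n → ℤ) :
    act A (vec c v) = vec c (act A v) := by
  funext i
  simp only [act, vec, Finset.sum_smul, smul_eq_mul, mul_smul]

lemma vec_add (c : C) (v w : Fin n → ℤ) : vec c (v + w) = vec c v + vec c w := by
  funext i
  simp [vec, add_smul]

lemma vec_zero (c : C) : vec c (0 : Fin n → ℤ) = 0 := by
  funext i
  simp [vec]

lemma vec_one (v : Fin n → ℤ) : vec (1 : ℤ) v = v := by
  funext i
  simp [vec]

lemma act_continuous [TopologicalSpace C] [IsTopologicalAddGroup C]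
    (A : Matrix (Fin n) (Fin n) ℤ) : Continuous (act A : (Fin n → C) → Fin n → C) := by
  unfold act
  fun_prop

end act

/-- extension data: an integral representation of `F` and a normalised two-cocycle -/
structure Dat (n : ℕ) (F : Type) [Group F] where
  ρ : F → Matrix (Fin n) (Fin n) ℤ
  ρ_one : ρ 1 = 1
  ρ_mul : ∀ f g, ρ (f * g) = ρ f * ρ g
  γ : F → F → Fin n → ℤ
  γ_left : ∀ g, γ 1 g = 0
  γ_right : ∀ g, γ g 1 = 0
  coc : ∀ f g h, γ f g + γ (f * g) h = act (ρ f) (γ g h) + γ f (g * h)

/-- the set `Cⁿ × F`, with the multiplication given by the data -/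
def E {n : ℕ} {F : Type} [Group F] (_D : Dat n F) (C : Type) [AddCommGroup C] (_c : C) : Type :=
  (Fin n → C) × F

section E

variable {n : ℕ} {F : Type} [Group F] (D : Dat n F) (C : Type) [AddCommGroup C] (c : C)

instance : Group (E D C c) :=
  letI : Mul (E D C c) := ⟨fun z w => (z.1 + act (D.ρ z.2) w.1 + vec c (D.γ z.2 w.2), z.2 * w.2)⟩
  letI : One (E D C c) := ⟨(0, 1)⟩
  letI : Inv (E D C c) := ⟨fun z => (-act (D.ρ z.2⁻¹) z.1 - vec c (D.γ z.2⁻¹ z.2), z.2⁻¹)⟩
  Group.ofLeftAxioms
    (by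
      rintro ⟨x, f⟩ ⟨y, g⟩ ⟨z, h⟩
      refine Prod.ext ?_ (mul_assoc f g h)
      change (x + act (D.ρ f) y + vec c (D.γ f g)) + act (D.ρ (f * g)) z + vec c (D.γ (f * g) h) =
        x + act (D.ρ f) (y + act (D.ρ g) z + vec c (D.γ g h)) + vec c (D.γ f (g * h))
      rw [act_add, act_add, D.ρ_mul, act_mul, act_vec]
      have := congrArg (vec c) (D.coc f g h)
      rw [vec_add, vec_add, ← act_vec] at this
      rw [← act_vec] 
      calc _ = x + act (D.ρ f) y + act (D.ρ f) (act (D.ρ g) z) +
            (vec c (D.γ f g) + vec c (D.γ (f * g) h)) := by abel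
        _ = _ := by rw [this]; abel)
    (by
      rintro ⟨x, f⟩
      refine Prod.ext ?_ (one_mul f)
      change 0 + act (D.ρ 1) x + vec c (D.γ 1 f) = x
      rw [D.ρ_one, act_one, D.γ_left, vec_zero]
      simp)
    (by
      rintro ⟨x, f⟩
      refine Prod.ext ?_ (inv_mul_cancel f)
      change (-act (D.ρ f⁻¹) x - vec c (D.γ f⁻¹ f)) + act (D.ρ f⁻¹) x + vec c (D.γ f⁻¹ f) = 0
      abel)

/-- constructor -/
def mk (x : Fin n → C) (f : F) : E D C c := (x, f)

lemma mul_def (z w : E D C c) :
    z * w = mk D C c (z.1 + act (D.ρ z.2) w.1 + vec c (D.γ z.2 w.2)) (z.2 * w.2) := rfl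

lemma mk_mul (x y : Fin n → C) (f g : F) : mk D C c x f * mk D C c y g =
    mk D C c (x + act (D.ρ f) y + vec c (D.γ f g)) (f * g) := rfl

lemma one_def : (1 : E D C c) = mk D C c 0 1 := rfl

/-- the map from the discrete group -/
def ι : E D ℤ 1 →* E D C c where
  toFun z := mk D C c (vec c z.1) z.2
  map_one' := by
    rw [one_def, one_def]
    exact Prod.ext (vec_zero c) rfl
  map_mul' := by
    rintro ⟨x, f⟩ ⟨y, g⟩
    refine Prod.ext ?_ rfl
    change vec c (x + act (D.ρ f) y + vec 1 (D.γ f g)) =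
      vec c x + act (D.ρ f) (vec c y) + vec c (D.γ f g)
    rw [vec_one, vec_add, vec_add, act_vec]

lemma ι_apply (z : E D ℤ 1) : ι D C c z = mk D C c (vec c z.1) z.2 := rfl

/-- the projection to the finite quotient -/
def pr : E D C c →* F where
  toFun z := z.2
  map_one' := rfl
  map_mul' _ _ := rfl

variable [TopologicalSpace C] [TopologicalSpace F]

instance : TopologicalSpace (E D C c) := inferInstanceAs (TopologicalSpace ((Fin n → C) × F))

instance [CompactSpace C] [CompactSpace F] : CompactSpace (E D C c) :=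
  inferInstanceAs (CompactSpace ((Fin n → C) × F))

instance [T2Space C] [T2Space F] : T2Space (E D C c) :=
  inferInstanceAs (T2Space ((Fin n → C) × F))

instance [TotallyDisconnectedSpace C] [TotallyDisconnectedSpace F] :
    TotallyDisconnectedSpace (E D C c) :=
  inferInstanceAs (TotallyDisconnectedSpace ((Fin n → C) × F))

instance [IsTopologicalAddGroup C] [DiscreteTopology F] : IsTopologicalGroup (E D C c) where
  continuous_mul := by
    have h : ∀ f g : F, Continuous fun q : (Fin n → C) × (Fin n → C) =>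
        q.1 + act (D.ρ f) q.2 + vec c (D.γ f g) := fun f g => by
      have := act_continuous (C := C) (D.ρ f)
      fun_prop
    have h2 : Continuous fun q : ((Fin n → C) × F) × ((Fin n → C) × F) =>
        ((q.1.1 + act (D.ρ q.1.2) q.2.1 + vec c (D.γ q.1.2 q.2.2), q.1.2 * q.2.2) :
          (Fin n → C) × F) := by
      refine Continuous.prodMk ?_ ?_
      · rw [continuous_iff_continuousAt]
        rintro ⟨⟨x, f⟩, ⟨y, g⟩⟩
        have h3 : (fun q : ((Fin n → C) × F) × ((Fin n → C) × F) =>
            q.1.1 + act (D.ρ f) q.2.1 + vec c (D.γ f g)) =ᶠ[nhds ((x, f), (y, g))]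
            fun q => q.1.1 + act (D.ρ q.1.2) q.2.1 + vec c (D.γ q.1.2 q.2.2) := by
          have o1 : IsOpen {q : ((Fin n → C) × F) × ((Fin n → C) × F) | q.1.2 = f ∧ q.2.2 = g} :=
            ((isOpen_discrete {f}).preimage (by fun_prop : Continuous
              fun q : ((Fin n → C) × F) × ((Fin n → C) × F) => q.1.2)).inter
              ((isOpen_discrete {g}).preimage (by fun_prop : Continuous
              fun q : ((Fin n → C) × F) × ((Fin n → C) × F) => q.2.2))
          filter_upwards [o1.mem_nhds ⟨rfl, rfl⟩] with q hq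
          rw [hq.1, hq.2]
        refine ContinuousAt.congr ?_ h3
        exact ((h f g).comp (by fun_prop : Continuous
          fun q : ((Fin n → C) × F) × ((Fin n → C) × F) => (q.1.1, q.2.1))).continuousAt
      · have : Continuous fun q : F × F => q.1 * q.2 := continuous_of_discreteTopology
        exact this.comp (by fun_prop : Continuous
          fun q : ((Fin n → C) × F) × ((Fin n → C) × F) => (q.1.2, q.2.2))
    exact h2
  continuous_inv := by
    have h2 : Continuous fun q : (Fin n → C) × F =>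
        ((-act (D.ρ q.2⁻¹) q.1 - vec c (D.γ q.2⁻¹ q.2), q.2⁻¹) : (Fin n → C) × F) := by
      refine Continuous.prodMk ?_ ?_
      · rw [continuous_iff_continuousAt]
        rintro ⟨x, f⟩
        have h3 : (fun q : (Fin n → C) × F => -act (D.ρ f⁻¹) q.1 - vec c (D.γ f⁻¹ f))
            =ᶠ[nhds (x, f)] fun q => -act (D.ρ q.2⁻¹) q.1 - vec c (D.γ q.2⁻¹ q.2) := by
          have o1 : IsOpen {q : (Fin n → C) × F | q.2 = f} :=
            (isOpen_discrete {f}).preimage (by fun_prop : Continuous
              fun q : (Fin n → C) × F => q.2)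
          filter_upwards [o1.mem_nhds rfl] with q hq
          rw [show q.2 = f from hq]
        refine ContinuousAt.congr ?_ h3
        have := act_continuous (C := C) (D.ρ f⁻¹)
        exact (by fun_prop : Continuous fun q : (Fin n → C) × F =>
          -act (D.ρ f⁻¹) q.1 - vec c (D.γ f⁻¹ f)).continuousAt
      · have : Continuous fun q : F => q⁻¹ := continuous_of_discreteTopology
        exact this.comp continuous_snd
    exact h2

end E

/-! ## The pieces -/

/-- multiples of `c` are dense -/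
def Dns (C : Type) [AddCommGroup C] [TopologicalSpace C] (c : C) : Prop :=
  closure (Set.range fun k : ℤ => k • c) = Set.univ

/-- `(C, c)` is universal among the compact abelian groups -/
def UC (C : Type) [AddCommGroup C] [TopologicalSpace C] (c : C) : Prop :=
  Dns C c ∧ ∀ (M : Type) [TopologicalSpace M] [CommGroup M] [IsTopologicalGroup M]
    [CompactSpace M] [T2Space M] (m : M),
    ∃ h : Multiplicative C →* M, Continuous h ∧ h (Multiplicative.ofAdd c) = m

/-- `(C, c)` is universal among the profinite abelian groups -/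
def UP (C : Type) [AddCommGroup C] [TopologicalSpace C] (c : C) : Prop :=
  Dns C c ∧ ∀ (M : Type) [TopologicalSpace M] [CommGroup M] [IsTopologicalGroup M]
    [CompactSpace M] [T2Space M] [TotallyDisconnectedSpace M] (m : M),
    ∃ h : Multiplicative C →* M, Continuous h ∧ h (Multiplicative.ofAdd c) = m

/-- PIECE SPLIT (100 lines; uses `Pool.Agent.Helper472.Lat_Chars` (`chars`) and `TH286.NC.S1b`
(`torus_char`)): the Bohr compactification of `ℤ` is `P × S`. -/
def S_SPLIT : Prop :=
  ∃ (P S : Type) (_ : AddCommGroup P) (_ : TopologicalSpace P) (_ : IsTopologicalAddGroup P)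
    (_ : CompactSpace P) (_ : T2Space P) (_ : TotallyDisconnectedSpace P)
    (_ : AddCommGroup S) (_ : TopologicalSpace S) (_ : IsTopologicalAddGroup S)
    (_ : CompactSpace S) (_ : T2Space S) (p : P) (s : S),
    (∀ k : ℕ, k ≠ 0 → ∀ x : P, k • x = 0 → x = 0) ∧
    (∀ k : ℕ, k ≠ 0 → Function.Bijective fun y : S => k • y) ∧
    UC (P × S) (p, s) ∧ UP P p

/-- every element of `M` is the image of `c` under a continuous homomorphism -/
def Gen (C : Type) [AddCommGroup C] [TopologicalSpace C] (c : C) (M : Type) [TopologicalSpace M]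
    [Group M] : Prop :=
  ∀ m : M, ∃ h : Multiplicative C →* M, Continuous h ∧ h (Multiplicative.ofAdd c) = m

/-- PIECE GEN (30 lines): pass to the closure of the powers of `m`. -/
def S_GEN : Prop :=
  ∀ (C : Type) [AddCommGroup C] [TopologicalSpace C] (c : C) (M : Type) [TopologicalSpace M]
    [Group M] [IsTopologicalGroup M] [CompactSpace M] [T2Space M],
    (UC C c → Gen C c M) ∧ (TotallyDisconnectedSpace M → UP C c → Gen C c M)

/-- PIECE UNIV (120 lines): universal property of `E D C c`. Let `h i` be the homomorphism with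
`h i c = φ (e_i, 1)`, with values in the closure `M₀` of `φ (ℤⁿ × 1)`, a commutative group; `H x = ∏ h i (x i)`;
by density `φ (0, f) * H y * (φ (0, f))⁻¹ = H (act (ρ f) y)`; put `h (x, f) = H x * φ (0, f)`. -/
def S_UNIV : Prop :=
  ∀ (n : ℕ) (F : Type) [Group F] [TopologicalSpace F] [DiscreteTopology F] [Finite F]
    (D : Dat n F) (C : Type) [AddCommGroup C] [TopologicalSpace C] [IsTopologicalAddGroup C]
    (c : C), Dns C c →
    ∀ (M : Type) [TopologicalSpace M] [Group M] [IsTopologicalGroup M] [CompactSpace M] [T2Space M],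
      Gen C c M → ∀ φ : E D ℤ 1 →* M,
        ∃! h : E D C c →* M, Continuous h ∧ h.comp (ι D C c) = φ

/-- PIECE DATA (80 lines): a group with a normal subgroup `ℤⁿ`. Normalised section `σ` of
`Λ → Λ ⧸ A`, `ρ f` = the matrix of the conjugation with `σ f`, `γ f g = σ f * σ g * (σ (f * g))⁻¹`. -/
def S_DATA : Prop :=
  ∀ (Λ : Type) [Group Λ] (A : Subgroup Λ) [A.Normal] (n : ℕ)
    (_e : A ≃* Multiplicative (Fin n → ℤ)),
    ∃ (D : Dat n (Λ ⧸ A)) (θ : Λ ≃* E D ℤ 1), ∀ g : Λ, (θ g).2 = (g : Λ ⧸ A)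

/-- PIECE MAT (50 lines): expand the entries of `Φ` in a basis `b` of `ℚ_[2]` over `ℚ`:
`Φ = ∑ b_l • Φ_l` with rational `Φ_l`, each of which intertwines; the polynomial
`det (∑ t_l Φ_l)` is not zero as it is not zero at `b`, so it has a rational non-root; clear denominators. -/
def S_MAT : Prop :=
  ∀ (n : ℕ) (J : Type) (R R' : J → Matrix (Fin n) (Fin n) ℤ) (Φ : Matrix (Fin n) (Fin n) ℚ_[2]),
    Φ.det ≠ 0 → (∀ j, Φ * (R j).map (Int.cast : ℤ → ℚ_[2]) = (R' j).map (Int.cast : ℤ → ℚ_[2]) * Φ) →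
    ∃ M : Matrix (Fin n) (Fin n) ℤ, M.det ≠ 0 ∧ ∀ j, M * R j = R' j * M

/-- PIECE PAD (100 lines): there is a continuous homomorphism `q : P → ℤ_[2]` with `q p = 1`; the matrix
`Φ i j = q (φ (p e_j) i)`; by density `q (φ x i) = ∑ j, Φ i j * q (x j)`. -/
def S_PAD : Prop :=
  ∀ (P : Type) [AddCommGroup P] [TopologicalSpace P] [IsTopologicalAddGroup P] [CompactSpace P]
    [T2Space P] (p : P), UP P p → ∀ (n n' : ℕ) (φ : (Fin n → P) ≃ₜ+ (Fin n' → P)),
    n = n' ∧ ∀ (_ : n = n') (J : Type) (R : J → Matrix (Fin n) (Fin n) ℤ)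
      (R' : J → Matrix (Fin n') (Fin n') ℤ), (∀ j x, φ (act (R j) x) = act (R' j) (φ x)) →
      ∃ (Φ : Matrix (Fin n') (Fin n) ℚ_[2]) (Φ' : Matrix (Fin n) (Fin n') ℚ_[2]),
        Φ * Φ' = 1 ∧ Φ' * Φ = 1 ∧
        ∀ j, Φ * (R j).map (Int.cast : ℤ → ℚ_[2]) = (R' j).map (Int.cast : ℤ → ℚ_[2]) * Φ

/-- PIECE THETA (70 lines): an isomorphism which respects `Pⁿ`. `Θ (x, 1) = (φ x, 1)`,
`Θ (0, f) = (β f, α f)`, `(x, f) = (x, 1) (0, f)`. -/
def S_THETA : Prop :=
  ∀ (n n' : ℕ) (F F' : Type) [Group F] [Group F'] [TopologicalSpace F] [DiscreteTopology F]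
    [TopologicalSpace F'] [DiscreteTopology F'] (D : Dat n F) (D' : Dat n' F')
    (P : Type) [AddCommGroup P] [TopologicalSpace P] [IsTopologicalAddGroup P] (p : P)
    (Θ : E D P p ≃ₜ* E D' P p), (∀ z, z.2 = 1 ↔ (Θ z).2 = 1) →
    ∃ (α : F ≃* F') (φ : (Fin n → P) ≃ₜ+ (Fin n' → P)) (β : F → Fin n' → P),
      (∀ x f, Θ (mk D P p x f) = mk D' P p (φ x + β f) (α f)) ∧
      ∀ f x, φ (act (D.ρ f) x) = act (D'.ρ (α f)) (φ x)

/-- PIECE LIFT (120 lines): `(x, y, f) ↦ (φ x + β f, act M y + τ f, α f)` with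
`τ f = N⁻¹ ∑_g (act M (γ f g s) - γ' (α f) (α g) s)`, `N = |F|`; `act M` is bijective on `Sⁿ` because
`M * adjugate M = det M`; a continuous bijection of compact Hausdorff spaces. -/
def S_LIFT : Prop :=
  ∀ (n : ℕ) (F F' : Type) [Group F] [Group F'] [TopologicalSpace F] [DiscreteTopology F]
    [Finite F] [TopologicalSpace F'] [DiscreteTopology F'] [Finite F'] (D : Dat n F) (D' : Dat n F')
    (P S : Type) [AddCommGroup P] [TopologicalSpace P] [IsTopologicalAddGroup P] [CompactSpace P]
    [T2Space P] [AddCommGroup S] [TopologicalSpace S] [IsTopologicalAddGroup S] [CompactSpace S]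
    [T2Space S] (p : P) (s : S), (∀ k : ℕ, k ≠ 0 → Function.Bijective fun y : S => k • y) →
    ∀ (Θ : E D P p ≃* E D' P p) (α : F ≃* F') (φ : (Fin n → P) ≃ₜ+ (Fin n → P))
      (β : F → Fin n → P), (∀ x f, Θ (mk D P p x f) = mk D' P p (φ x + β f) (α f)) →
      (∀ f x, φ (act (D.ρ f) x) = act (D'.ρ (α f)) (φ x)) →
      ∀ M : Matrix (Fin n) (Fin n) ℤ, M.det ≠ 0 → (∀ f, M * D.ρ f = D'.ρ (α f) * M) →
      Nonempty (E D (P × S) (p, s) ≃ₜ* E D' (P × S) (p, s))

/-- PIECE SUB (60 lines): `A' = ker (q ∘ j)`; finite index, so finitely generated (Schreier,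
`Subgroup.fg_of_index_ne_zero`), commutative and torsion-free, so free of finite rank. -/
def S_SUB : Prop :=
  ∀ (Γ : Type) [Group Γ], Group.FG Γ → ∀ (L : Type) [Group L] (j : Γ →* L),
    Function.Injective j → ∀ (F : Type) [Group F] [Finite F] (q : L →* F),
    (∀ x y, q x = 1 → q y = 1 → x * y = y * x) →
    (∀ x (k : ℕ), k ≠ 0 → q x = 1 → x ^ k = 1 → x = 1) →
    ∃ (A : Subgroup Γ) (n : ℕ), A.Normal ∧ A.index ≠ 0 ∧ Nonempty (A ≃* Multiplicative (Fin n → ℤ)) ∧
      ∀ g, g ∈ A ↔ q (j g) = 1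

end Pool.Agent.Run7.h900.BR
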